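import Pool.Agent.Lib.MP_d8f801_lc.SC.K.Defs
import Pool.Agent.Lib.MP_d8f801_lc.SC.U.Meas

/-!
# SC/U: the setting exists if there is a measurable cardinal (top-level statement)
-/

set_option autoImplicit false

universe u

namespace Pool.MP_d8f801_lc.SC

open Cardinal Set Filter

/-- `κ` is a measurable cardinal: it is uncountable and there is a nonprincipal `κ`-complete ultrafilter on a set
of size `κ`. -/
def IsMeasurableCard (κ : Cardinal.{u}) : Prop :=
  ℵ₀ < κ ∧ ∃ (α : Type u) (F : Ultrafilter α), #α = κ ∧ (∀ x : α, {x} ∉ F) ∧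
    ∀ s : Set (Set α), #s < κ → (∀ A ∈ s, A ∈ F) → ⋂₀ s ∈ F

private theorem UGoal_card (o : Ordinal.{u}) (x : o.ToType) :
    #(Iio x) = (Ordinal.typein (α := o.ToType) (· < ·) x).card :=
  (Ordinal.card_typein (r := (· < · : o.ToType → o.ToType → Prop)) x).symm

private theorem UGoal_elt {o a : Ordinal.{u}} (h : a < o) :
    ∃ x : o.ToType, Ordinal.typein (α := o.ToType) (· < ·) x = a :=
  Ordinal.typein_surj (α := o.ToType) (· < ·) (by rw [Ordinal.type_toType]; exact h)

theorem exists_stg (κ : Cardinal.{u}) (h : IsMeasurableCard κ) : ∃ X : Type u, Nonempty (Stg X) := by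
  classical
  obtain ⟨hκ, α, F, hα, hnp, hc⟩ := h
  have hpow : ∀ c : Cardinal.{u}, c < κ → (2 : Cardinal.{u}) ^ c < κ := fun c hc' =>
    meas_two_power_lt hα hc hnp hc'
  have hstrong : κ.IsStrongLimit := ⟨(Cardinal.aleph0_pos.trans hκ).ne', fun {c} hc' => hpow c hc'⟩
  let o : Ordinal.{u} := ((2 : Cardinal.{u}) ^ κ).ord
  let X : Type u := o.ToType
  have hκo : κ.ord < o := Cardinal.ord_lt_ord.mpr (Cardinal.cantor κ)
  have hω : ℵ₁ < κ := by
    refine lt_of_le_of_lt ?_ (hpow ℵ₀ hκ)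
    rw [← Cardinal.succ_aleph0]
    exact Order.succ_le_of_lt (Cardinal.cantor ℵ₀)
  obtain ⟨k, hk⟩ := UGoal_elt hκo
  obtain ⟨w, hw⟩ := UGoal_elt ((Cardinal.ord_lt_ord.mpr hω).trans hκo)
  have hkc : #(Iio k) = κ := by rw [UGoal_card, hk, Cardinal.card_ord]
  have hkm : ∀ x : X, x < k → #(Iio x) < κ := by
    intro x hx
    have h1 := (Ordinal.typein_lt_typein (α := X) (· < ·)).mpr hx
    rw [hk] at h1
    rw [UGoal_card]
    exact Cardinal.lt_ord.mp h1
  have hwm : ∀ x : X, x < w → #(Iio x) < ℵ₁ := by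
    intro x hx
    have h1 := (Ordinal.typein_lt_typein (α := X) (· < ·)).mpr hx
    rw [hw] at h1
    rw [UGoal_card]
    exact Cardinal.lt_ord.mp h1
  have hwk : w < k := by
    refine (Ordinal.typein_lt_typein (α := X) (· < ·)).mp ?_
    rw [hw, hk]
    exact Cardinal.ord_lt_ord.mpr hω
  have hne : Nonempty X := ⟨k⟩
  -- the ultrafilter on `Iio k`
  obtain ⟨e⟩ : Nonempty (α ≃ ↥(Iio k)) := Cardinal.eq.mp (hα.trans hkc.symm)
  have hnp' : ∀ x : ↥(Iio k), {x} ∉ F.map e := by
    intro x hx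
    rw [Ultrafilter.mem_map] at hx
    refine hnp (e.symm x) (mem_of_superset hx ?_)
    intro y hy
    have h1 : e y = x := hy
    rw [mem_singleton_iff, ← h1, Equiv.symm_apply_apply]
  have hc' : ∀ s : Set (Set ↥(Iio k)), #s < κ → (∀ A ∈ s, A ∈ F.map e) → ⋂₀ s ∈ F.map e := by
    intro s hs hA
    rw [Ultrafilter.mem_map]
    have h1 := hc ((fun A => e ⁻¹' A) '' s) (Cardinal.mk_image_le.trans_lt hs) (by
      rintro B ⟨A, hA1, rfl⟩
      exact hA A hA1)
    refine mem_of_superset h1 ?_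
    intro x hx A hA1
    exact hx _ ⟨A, hA1, rfl⟩
  have hI : ∀ x : ↥(Iio k), #(Iio x) < κ := by
    intro x
    refine lt_of_le_of_lt ?_ (hkm x.1 x.2)
    exact Cardinal.mk_le_of_injective (f := fun y : ↥(Iio x) => (⟨y.1.1, y.2⟩ : ↥(Iio x.1)))
      (fun a b hab => Subtype.ext (Subtype.ext (congrArg (fun z : ↥(Iio x.1) => z.1) hab)))
  have hreg : κ.IsRegular := by
    refine ⟨hκ.le, ?_⟩
    have h1 := meas_le_cof (F := F.map e) hκ hI hc' hnp'
    have h2 : Ordinal.type (α := ↥(Iio k)) (· < ·) = κ.ord := by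
      rw [← hk]
      rfl
    rwa [← Ordinal.cof_type, h2] at h1
  obtain ⟨U, hU1, hU2⟩ := exists_normal (F := F.map e) hκ hI hc' hnp'
  -- coding
  have hcode : #(↥(Iio k) → X) = #X := by
    have h1 : #X = 2 ^ κ := Cardinal.mk_ord_toType _
    rw [← Cardinal.power_def, h1, hkc, ← Cardinal.power_mul, Cardinal.mul_eq_self hκ.le]
  obtain ⟨c⟩ := Cardinal.eq.mp hcode
  let _ : OrderBot X := WellFoundedLT.toOrderBot X
  refine ⟨X, ⟨?_⟩⟩
  exact
    { wfl := wellFounded_lt
      w1 := w
      kk := k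
      ev := fun ξ ν => if h : ν < k then c.symm ξ ⟨ν, h⟩ else ⊥
      U := U.map Subtype.val
      w1_lt := hwk
      w1_unc := by
        rw [← Cardinal.le_aleph0_iff_set_countable, UGoal_card, hw, Cardinal.card_ord, not_le]
        exact Cardinal.aleph0_lt_aleph_one
      w1_min := fun x hx => by
        rw [← Cardinal.le_aleph0_iff_set_countable]
        have h1 := hwm x hx
        rw [← Cardinal.succ_aleph0, Order.lt_succ_iff] at h1
        exact h1
      strong := by rw [hkc]; exact hstrong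
      reg := by rw [hkc]; exact hreg
      kk_min := fun x hx => by rw [hkc]; exact hkm x hx
      card_X := by rw [hkc]; exact Cardinal.mk_ord_toType _
      ev_surj := fun f => by
        refine ⟨c (fun ν => f ν.1), fun ν hν => ?_⟩
        rw [dif_pos hν, Equiv.symm_apply_apply]
      U_kk := by
        refine Ultrafilter.mem_map.mpr ?_
        exact univ_mem' fun x => x.2
      U_tail := fun x hx => by
        refine Ultrafilter.mem_map.mpr ?_
        exact mem_of_superset (hU1 ⟨x, hx⟩) fun y hy => hy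
      U_normal := fun P hP => by
        refine Ultrafilter.mem_map.mpr ?_
        have h1 := hU2 (fun i ν => P i.1 ν.1) (fun i => Ultrafilter.mem_map.mp (hP i.1 i.2))
        refine mem_of_superset h1 ?_
        intro ν hν i hi
        exact hν ⟨i, hi.trans ν.2⟩ hi }

end Pool.MP_d8f801_lc.SC
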